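import Pool.Agent.Mg.Fc70b3b.G6b3bf2

open MeasureTheory Filter Topology BoundedContinuousFunction Pool.Agent.MP_c70b3b_mp

theorem Pool.Agent.Results.MP_c70b3b_mp.AveragedLimit.result (β : ℝ) (hβ : 0 ≤ β) :
    ∃ ν : Measure (((ℤ × ℤ) × Bool → ℝ) × (ℤ × ℤ → Units ℤ)), IsEAOn β Set.univ ν ∧
      ∀ μ : ℕ → Measure (((ℤ × ℤ) × Bool → ℝ) × (ℤ × ℤ → Units ℤ)),
        (∀ n, IsEAOn β (box n) (μ n)) →
        ∀ g : ((ℤ × ℤ) × Bool → ℝ) × (ℤ × ℤ → Units ℤ) →ᵇ ℝ,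
          Tendsto (fun n : ℕ => (∑ z ∈ box n, ∫ p, g (shift z p) ∂μ n) / (box n).card)
            atTop (𝓝 (∫ p, g p ∂ν)) := by
  obtain ⟨ν, h1, -, -, h4⟩ := final hβ
  exact ⟨ν, h1, h4⟩
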