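import Pool.Agent.Mg.Fc70b3ba.Ga3ae4b

open MeasureTheory ProbabilityTheory Filter Topology Pool.Agent.MP_c70b3b_mp

theorem Pool.Agent.Results.MP_c70b3b_mp.Congruent.result (β : ℝ) (hβ : 0 ≤ β) :
    ∀ᵐ w ∂(Measure.infinitePi fun _ : (ℤ × ℤ) × Bool => gaussianReal 0 1),
      ∀ (T : Finset (ℤ × ℤ)) (f : (ℤ × ℤ → Units ℤ) → ℝ), DependsOn f (T : Set (ℤ × ℤ)) →
        (∀ s, f (-s) = f s) → ∀ μ μ' : ℕ → Measure (ℤ × ℤ → Units ℤ),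
        (∀ n, IsGibbsIn β w (box n) (μ n)) → (∀ n, IsGibbsIn β w (box n) (μ' n)) →
        Tendsto (fun n : ℕ => (∑ z ∈ box n,
          |∫ s, f (fun x => s (x + z)) ∂μ n - ∫ s, f (fun x => s (x + z)) ∂μ' n|) / (box n).card)
          atTop (𝓝 0) :=
  Cg.congruent β hβ
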