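import Pool.Agent.Mg.Fc70b3b.G6b3bf2

open MeasureTheory Pool.Agent.MP_c70b3b_mp

theorem Pool.Agent.Results.MP_c70b3b_mp.PeriodicUnique.result (β : ℝ) (hβ : 0 ≤ β) :
    ∃! ν : Measure (((ℤ × ℤ) × Bool → ℝ) × (ℤ × ℤ → Units ℤ)),
      IsEAOn β Set.univ ν ∧ IsPeriodic ν := by
  obtain ⟨ν, h1, h2, h3, -⟩ := final hβ
  exact ⟨ν, ⟨h1, 1, one_pos, fun z => h2 _⟩, fun ν' h => h3 ν' h.1 h.2⟩
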