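import Pool.Agent.MP_c70b3b_mp.Tri.B

open MeasureTheory ProbabilityTheory Pool.Agent.MP_c70b3b_mp

theorem Pool.Agent.Results.MP_c70b3b_mp.PureStates.result (β : ℝ) (hβ : 0 ≤ β) :
    ((∃! ν, IsEAOn β Set.univ ν) ∧
      ∀ᵐ w ∂(Measure.infinitePi fun _ : (ℤ × ℤ) × Bool => gaussianReal 0 1),
        ∃ α, gibbsSet β w = {α}) ∨
    (∀ᵐ w ∂(Measure.infinitePi fun _ : (ℤ × ℤ) × Bool => gaussianReal 0 1),
      ∃ α : Measure (ℤ × ℤ → Units ℤ), α ≠ α.map (fun s => -s) ∧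
        Set.extremePoints NNReal (gibbsSet β w) = {α, α.map fun s => -s}) ∨
    ∀ᵐ w ∂(Measure.infinitePi fun _ : (ℤ × ℤ) × Bool => gaussianReal 0 1),
      (Set.extremePoints NNReal (gibbsSet β w)).Infinite :=
  Tri.trichotomy β hβ
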